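import Mathlib
import Pool.Agent.DeltaConn.Cover

set_option autoImplicit false

/-!
# A two-to-one covering map from a delta-connected continuum onto a continuum that is not
delta-connected (MP_ea0cba_gt)

Own theorem beside the proof of the frozen statement S14160: explicit form of the counterexample.
-/

namespace Pool.Agent.Results.MP_ea0cba_gt.DoubleCover

open Set Topology

/-- `K` is a subcontinuum of the metric space `Z`. -/
def IsSubcontinuum {Z : Type} [TopologicalSpace Z] (K : Set Z) : Prop :=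
  IsCompact K ∧ IsConnected K

/-- `K` is decomposable: it is the union of two proper subcontinua. -/
def IsDecomposable {Z : Type} [TopologicalSpace Z] (K : Set Z) : Prop :=
  ∃ A B : Set Z, IsSubcontinuum A ∧ IsSubcontinuum B ∧ A ≠ K ∧ B ≠ K ∧ A ∪ B = K

/-- `K` is hereditarily decomposable: each nondegenerate subcontinuum of it is decomposable. -/
def IsHereditarilyDecomposable {Z : Type} [TopologicalSpace Z] (K : Set Z) : Prop :=
  ∀ M : Set Z, M ⊆ K → IsSubcontinuum M → M.Nontrivial → IsDecomposable M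

/-- `K` is irreducible between `p` and `q`. -/
def IsIrreducibleBetween {Z : Type} [TopologicalSpace Z] (K : Set Z) (p q : Z) : Prop :=
  p ∈ K ∧ q ∈ K ∧ ∀ L : Set Z, L ⊆ K → IsSubcontinuum L → p ∈ L → q ∈ L → L = K

/-- `Z` is `δ`-connected. -/
def IsDeltaConnected (Z : Type) [TopologicalSpace Z] : Prop :=
  ∀ p q : Z, ∃ K : Set Z, IsSubcontinuum K ∧ IsHereditarilyDecomposable K ∧
    IsIrreducibleBetween K p q

/-- The dyadic solenoid. -/
def Solenoid : Set (ℕ → UnitAddCircle) := {x | ∀ n, (2 : ℕ) • x (n + 1) = x n}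

open Pool.Agent.DeltaConn

lemma isDecomposable_iff {Z : Type} [TopologicalSpace Z] (K : Set Z) :
    IsDecomposable K ↔ Pool.Agent.ContinuumBasics.Decomp K := by
  constructor
  · rintro ⟨A, B, ⟨hA, hAc⟩, ⟨hB, hBc⟩, hAne, hBne, hAB⟩
    exact ⟨A, B, hAB ▸ subset_union_left, hAB ▸ subset_union_right, hAne, hBne, hA, hAc, hB, hBc,
      hAB⟩
  · rintro ⟨A, B, -, -, hAne, hBne, hA, hAc, hB, hBc, hAB⟩
    exact ⟨A, B, ⟨hA, hAc⟩, ⟨hB, hBc⟩, hAne, hBne, hAB⟩

/-- The statement for given spaces. -/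
def Goal (X Y : Type) [TopologicalSpace X] [TopologicalSpace Y] : Prop :=
  ∃ f : X → Y, IsCoveringMap f ∧ IsLocalHomeomorph f ∧ Function.Surjective f ∧
    (∀ y : Y, (f ⁻¹' {y}).ncard = 2) ∧
    IsDeltaConnected X ∧ ¬ IsDeltaConnected Y ∧
    ∃ p q : Y, p ≠ q ∧ IsIrreducibleBetween univ p q ∧
      ∃ M : Set Y, IsSubcontinuum M ∧ M.Nontrivial ∧ ¬ IsDecomposable M ∧
        Nonempty (M ≃ₜ Solenoid)

lemma transfer (X Y : Type) (tX : TopologicalSpace X) (tY : TopologicalSpace Y)
    (_ : TopologicalSpace.MetrizableSpace X) (_ : TopologicalSpace.MetrizableSpace Y)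
    (_ : CompactSpace X) (_ : ConnectedSpace X) (_ : CompactSpace Y) (_ : ConnectedSpace Y)
    (h : Goal X Y) : ∃ (X Y : Type) (_ : MetricSpace X) (_ : MetricSpace Y) (_ : CompactSpace X)
      (_ : ConnectedSpace X) (_ : CompactSpace Y) (_ : ConnectedSpace Y), Goal X Y := by
  obtain ⟨mX, hmX⟩ : ∃ m : MetricSpace X,
      m.toPseudoMetricSpace.toUniformSpace.toTopologicalSpace = tX :=
    ⟨TopologicalSpace.metrizableSpaceMetric X, rfl⟩
  obtain ⟨mY, hmY⟩ : ∃ m : MetricSpace Y,
      m.toPseudoMetricSpace.toUniformSpace.toTopologicalSpace = tY :=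
    ⟨TopologicalSpace.metrizableSpaceMetric Y, rfl⟩
  subst hmX
  subst hmY
  exact ⟨X, Y, mX, mY, inferInstance, inferInstance, inferInstance, inferInstance, h⟩

lemma fibre_ncard (y : Yset) : (ff ⁻¹' {y}).ncard = 2 := by
  obtain ⟨u, hu⟩ := exists_two_smul (y.1.1 0)
  have hu' : (2 : ℕ) • (u + ((1 / 2 : ℝ) : Circ)) = y.1.1 0 := by
    rw [smul_add, two_smul_half, add_zero, hu]
  set q1 : Xset := ⟨(y.1, u), y.2, hu⟩ with hq1
  set q2 : Xset := ⟨(y.1, u + ((1 / 2 : ℝ) : Circ)), y.2, hu'⟩ with hq2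
  have hne : q1 ≠ q2 := by
    intro h
    have h1 : u = u + ((1 / 2 : ℝ) : Circ) := congrArg (fun q : Xset => q.1.2) h
    exact half_ne_zero (left_eq_add.1 h1)
  have hset : ff ⁻¹' {y} = {q1, q2} := by
    ext q
    simp only [mem_preimage, mem_singleton_iff, mem_insert_iff]
    constructor
    · intro h
      have hy : q.1.1 = y.1 := congrArg Subtype.val h
      have h2 : (2 : ℕ) • q.1.2 = (2 : ℕ) • u := by rw [q.2.2, hu, hy]
      rcases two_smul_eq h2 with h3 | h3
      · exact Or.inl (Subtype.ext (Prod.ext hy h3))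
      · exact Or.inr (Subtype.ext (Prod.ext hy h3))
    · rintro (rfl | rfl) <;> rfl
  rw [hset, ncard_pair hne]

lemma irreducible_Y {L : Set Yset} (hL : IsClosed L) (hLc : IsPreconnected L)
    (h1 : endpt 1 (Or.inl rfl) ∈ L) (h2 : endpt (-1) (Or.inr rfl) ∈ L) : L = univ := by
  apply eq_univ_of_forall
  rintro ⟨y, hy⟩
  obtain ⟨ε, hε, p, hp, rfl⟩ := mem_Yset_iff.1 hy
  obtain ⟨r, s⟩ := p
  rcases eq_or_lt_of_le hp.2.1.1 with h0 | h0
  · simp only at h0
    subst h0
    exact bar_mem hL hLc h1 h2 hε hp.1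
  · simp only at h0
    have hs : Continuous fun y : Yset => y.1.2.2.2 :=
      continuous_snd.comp (continuous_snd.comp (continuous_snd.comp continuous_subtype_val))
    have hivt : Icc (-1 : ℝ) 1 ⊆ (fun y : Yset => y.1.2.2.2) '' L := by
      have := hLc.intermediate_value h2 h1 hs.continuousOn
      have e1 : (endpt 1 (Or.inl rfl)).1.2.2.2 = 1 := by simp [endpt, Phi]
      have e2 : (endpt (-1) (Or.inr rfl)).1.2.2.2 = -1 := by simp [endpt, Phi]
      simp only [e1, e2] at this
      exact this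
    have hs1 : s ≤ 1 := hp.2.1.2
    have hmem : ε * s ∈ Icc (-1 : ℝ) 1 := by
      rcases hε with rfl | rfl
      · exact ⟨by linarith, by linarith⟩
      · exact ⟨by linarith, by linarith⟩
    obtain ⟨z, hzL, hz⟩ := hivt hmem
    simp only at hz
    have hpos : 0 < ε * z.1.2.2.2 := by
      rw [hz, ← mul_assoc, sq_sign hε, one_mul]
      exact h0
    have hzeq := ray_point z.2 hε hpos
    have he : ε * z.1.2.2.2 = s := by rw [hz, ← mul_assoc, sq_sign hε, one_mul]
    rw [he] at hzeq
    have hr : r = Real.cos (1 / s) := hp.2.2 h0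
    subst hr
    have : z = ⟨Phi ε (Real.cos (1 / s), s), hy⟩ := Subtype.ext hzeq
    rw [← this]
    exact hzL

lemma injective_jj : Function.Injective jj := by
  intro x y h
  have := congrArg (fun z : Yset => z.1.1) h
  exact Subtype.ext this

lemma homeo_MY : Nonempty (MY ≃ₜ Solenoid) := by
  have : CompactSpace Sol := isCompact_iff_compactSpace.1 isCompact_Sol
  have hm : ∀ x : Sol, jj x ∈ MY := fun x => by rw [← range_jj]; exact mem_range_self x
  let g : Sol → MY := fun x => ⟨jj x, hm x⟩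
  have hg : Continuous g := continuous_jj.subtype_mk _
  have hb : Function.Bijective g := by
    constructor
    · intro x y h
      exact injective_jj (congrArg Subtype.val h)
    · rintro ⟨y, hy⟩
      rw [← range_jj] at hy
      obtain ⟨x, rfl⟩ := hy
      exact ⟨x, rfl⟩
  exact ⟨(Continuous.homeoOfEquivCompactToT2 (f := Equiv.ofBijective g hb) hg).symm⟩

lemma goal_holds : Goal Xset Yset := by
  refine ⟨ff, isLocalHomeomorph_iff_isCoveringMap.1 isLocalHomeomorph_ff, isLocalHomeomorph_ff,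
    surjective_ff, fibre_ncard, ?_, ?_, endpt 1 (Or.inl rfl), endpt (-1) (Or.inr rfl), ?_,
    ⟨mem_univ _, mem_univ _, ?_⟩, MY, ⟨isCompact_MY, isConnected_MY⟩, nontrivial_MY, ?_, homeo_MY⟩
  · intro p q
    obtain ⟨K, hK, hKc, hp, hq, hmin, hHD⟩ := delta_X p q
    refine ⟨K, ⟨hK, hKc⟩, ?_, hp, hq, ?_⟩
    · intro M hM hMc hMn
      rw [isDecomposable_iff]
      exact hHD M hM hMc.1 hMc.2 hMn
    · intro L hL hLc h1 h2
      exact hmin L hL hLc.1 hLc.2 h1 h2
  · intro h
    obtain ⟨K, hK, hHD, h1, h2, -⟩ := h (endpt 1 (Or.inl rfl)) (endpt (-1) (Or.inr rfl))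
    have := hHD MY (MY_subset hK.1.isClosed hK.2.isPreconnected h1 h2)
      ⟨isCompact_MY, isConnected_MY⟩ nontrivial_MY
    rw [isDecomposable_iff] at this
    exact not_decomp_MY this
  · intro h
    have := congrArg (fun z : Yset => z.1.2.2.2) h
    simp only [endpt, Phi] at this
    norm_num at this
  · intro L _ hL h1 h2
    exact irreducible_Y hL.1.isClosed hL.2.isPreconnected h1 h2
  · rw [isDecomposable_iff]
    exact not_decomp_MY

/-- There are continua `X`, `Y` and a two-to-one covering map of `X` onto `Y` such that `X` is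
`δ`-connected and `Y` is not; moreover `Y` is irreducible between two points and contains a copy
of the dyadic solenoid, which is not decomposable. -/
theorem result : ∃ (X Y : Type) (_ : MetricSpace X) (_ : MetricSpace Y) (_ : CompactSpace X)
    (_ : ConnectedSpace X) (_ : CompactSpace Y) (_ : ConnectedSpace Y) (f : X → Y),
    IsCoveringMap f ∧ IsLocalHomeomorph f ∧ Function.Surjective f ∧
    (∀ y : Y, (f ⁻¹' {y}).ncard = 2) ∧
    IsDeltaConnected X ∧ ¬ IsDeltaConnected Y ∧
    ∃ p q : Y, p ≠ q ∧ IsIrreducibleBetween univ p q ∧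
      ∃ M : Set Y, IsSubcontinuum M ∧ M.Nontrivial ∧ ¬ IsDecomposable M ∧
        Nonempty (M ≃ₜ Solenoid) := by
  have hY : ConnectedSpace Yset := surjective_ff.connectedSpace continuous_ff
  obtain ⟨X, Y, mX, mY, cX, kX, cY, kY, f, h⟩ := transfer Xset Yset inferInstance inferInstance
    inferInstance inferInstance inferInstance inferInstance inferInstance hY goal_holds
  exact ⟨X, Y, mX, mY, cX, kX, cY, kY, f, h⟩

end Pool.Agent.Results.MP_ea0cba_gt.DoubleCover
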